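import Pool.Agent.W223.VD.Stms

/-!
# Part NF: algebraic integers of given norm with bounded conjugates, uniformly in the field
-/

set_option autoImplicit false

namespace Pool.Agent.W585.VD

open NumberField UniqueFactorizationMonoid Ideal

noncomputable section

open Classical in
/-- the primes of small norm dividing a nonzero ideal -/
lemma card_le_of_prod {α : Type*} (N : α → ℕ) (s : Multiset α) (h : ∀ v ∈ s, 2 ≤ N v) :
    2 ^ s.card ≤ (s.map N).prod := by
  induction s using Multiset.induction_on with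
  | empty => simp
  | cons a s ih =>
    rw [Multiset.card_cons, Multiset.map_cons, Multiset.prod_cons, pow_succ, mul_comm]
    exact Nat.mul_le_mul (h a (Multiset.mem_cons_self a s))
      (ih fun v hv => h v (Multiset.mem_cons_of_mem hv))

section

variable {K : Type} [Field K] [NumberField K]

lemma absNorm_eq_prod (J : Ideal (𝓞 K)) (hJ : J ≠ ⊥) :
    absNorm J = ((normalizedFactors J).map (fun v => absNorm v)).prod := by
  conv_lhs => rw [← Ideal.prod_normalizedFactors_eq_self hJ]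
  exact map_multiset_prod absNorm _

lemma two_le_absNorm {J v : Ideal (𝓞 K)} (hv : v ∈ normalizedFactors J) : 2 ≤ absNorm v := by
  have hp : Prime v := prime_of_normalized_factor v hv
  have h0 : absNorm v ≠ 0 := by
    intro h
    exact hp.ne_zero (absNorm_eq_zero_iff.1 h)
  have h1 : absNorm v ≠ 1 := by
    intro h
    have h2 := absNorm_eq_one_iff.1 h
    exact hp.not_isUnit (Ideal.isUnit_iff.2 h2)
  omega

lemma pow_card_le (J : Ideal (𝓞 K)) (hJ : J ≠ ⊥) :
    2 ^ (normalizedFactors J).card ≤ absNorm J := by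
  rw [absNorm_eq_prod J hJ]
  exact card_le_of_prod _ _ fun v hv => two_le_absNorm hv

lemma span_nat_ne {k : ℕ} (hk : k ≠ 0) : span {(k : 𝓞 K)} ≠ ⊥ := by
  rw [Ne, Ideal.span_singleton_eq_bot]
  exact_mod_cast hk

open Classical in
/-- the number of primes of norm less than `R` dividing an ideal -/
lemma small_primes (J : Ideal (𝓞 K)) (R : ℕ) :
    2 ^ (((normalizedFactors J).toFinset.filter (fun v => absNorm v < R)).card) ≤
      R.factorial ^ Module.finrank ℚ K := by
  set T := (normalizedFactors J).toFinset.filter (fun v => absNorm v < R) with hT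
  have hne : span {((R.factorial : ℕ) : 𝓞 K)} ≠ ⊥ := span_nat_ne (Nat.factorial_ne_zero R)
  have hsub : T ⊆ (normalizedFactors (span {((R.factorial : ℕ) : 𝓞 K)})).toFinset := by
    intro v hv
    rw [hT, Finset.mem_filter, Multiset.mem_toFinset] at hv
    obtain ⟨hv1, hv2⟩ := hv
    rw [Multiset.mem_toFinset]
    have hp : Prime v := prime_of_normalized_factor v hv1
    rw [Ideal.mem_normalizedFactors_iff hne]
    refine ⟨Ideal.isPrime_of_prime hp, ?_⟩
    rw [Ideal.span_singleton_le_iff_mem]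
    have h2 := two_le_absNorm hv1
    have h3 : absNorm v ∣ R.factorial := Nat.dvd_factorial (by omega) hv2.le
    obtain ⟨c, hc⟩ := h3
    rw [hc, Nat.cast_mul]
    exact Ideal.mul_mem_right _ _ (absNorm_mem v)
  have h1 : T.card ≤ (normalizedFactors (span {((R.factorial : ℕ) : 𝓞 K)})).card :=
    (Finset.card_le_card hsub).trans (Multiset.toFinset_card_le _)
  have h2 := pow_card_le _ hne
  rw [absNorm_span_natCast, RingOfIntegers.rank] at h2
  exact (Nat.pow_le_pow_right (by norm_num) h1).trans h2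

open Classical in
/-- the number of divisors of an ideal -/
lemma divisors_bound (ε A : ℝ) (hε : 0 < ε) (R t : ℕ) (hA : 1 ≤ A) (hAε : 1 ≤ A * (ε * Real.log 2))
    (hR : 2 ≤ (R : ℝ) ^ ε) (J : Ideal (𝓞 K)) (hJ : J ≠ ⊥)
    (ht : R.factorial ^ Module.finrank ℚ K < 2 ^ t) :
    ((Finset.Iic (normalizedFactors J)).card : ℝ) ≤ A ^ t * (absNorm J : ℝ) ^ ε := by
  rw [Multiset.card_Iic]
  push_cast
  set P := (normalizedFactors J).toFinset with hP
  have hkey : ∀ v ∈ P, (((normalizedFactors J).count v : ℕ) : ℝ) + 1 ≤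
      (if absNorm v < R then A else 1) * ((absNorm v : ℝ) ^ ((normalizedFactors J).count v)) ^ ε := by
    intro v hv
    rw [hP, Multiset.mem_toFinset] at hv
    have h2 : (2 : ℝ) ≤ (absNorm v : ℝ) := by exact_mod_cast two_le_absNorm hv
    set k := (normalizedFactors J).count v with hk
    have h3 : ((absNorm v : ℝ) ^ k) ^ ε = ((absNorm v : ℝ) ^ ε) ^ k := by
      rw [← Real.rpow_natCast, ← Real.rpow_natCast, ← Real.rpow_mul (by linarith),
        ← Real.rpow_mul (by linarith), mul_comm]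
    rw [h3]
    split_ifs with hlt
    · -- small prime
      have h4 : (1 : ℝ) + k * (ε * Real.log 2) ≤ ((absNorm v : ℝ) ^ ε) ^ k := by
        have h5 : (2 : ℝ) ^ ε ≤ (absNorm v : ℝ) ^ ε :=
          Real.rpow_le_rpow (by norm_num) h2 hε.le
        have h6 : (1 : ℝ) + ε * Real.log 2 ≤ (2 : ℝ) ^ ε := by
          rw [Real.rpow_def_of_pos (by norm_num : (0 : ℝ) < 2)]
          have h7 := Real.add_one_le_exp (Real.log 2 * ε)
          linarith
        have h8 : 0 ≤ ε * Real.log 2 := mul_nonneg hε.le (Real.log_nonneg (by norm_num))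
        calc (1 : ℝ) + k * (ε * Real.log 2) ≤ (1 + ε * Real.log 2) ^ k :=
              one_add_mul_le_pow (by linarith) k
          _ ≤ ((absNorm v : ℝ) ^ ε) ^ k := pow_le_pow_left₀ (by linarith) (h6.trans h5) k
      have h9 : (k : ℝ) + 1 ≤ A * (1 + k * (ε * Real.log 2)) := by
        have hk0 : (0 : ℝ) ≤ k := Nat.cast_nonneg k
        nlinarith
      exact h9.trans (mul_le_mul_of_nonneg_left h4 (by linarith))
    · -- large prime
      rw [one_mul]
      have h4 : (R : ℝ) ≤ (absNorm v : ℝ) := by exact_mod_cast not_lt.1 hlt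
      have h5 : 2 ≤ (absNorm v : ℝ) ^ ε :=
        hR.trans (Real.rpow_le_rpow (Nat.cast_nonneg R) h4 hε.le)
      have h6 : (k : ℝ) + 1 ≤ 2 ^ k := by
        exact_mod_cast Nat.lt_two_pow_self
      exact h6.trans (pow_le_pow_left₀ (by norm_num) h5 k)
  refine (Finset.prod_le_prod (fun v _ => by positivity) hkey).trans ?_
  rw [Finset.prod_mul_distrib]
  have h10 : ∏ v ∈ P, (if absNorm v < R then A else 1) ≤ A ^ t := by
    rw [Finset.prod_ite, Finset.prod_const_one, mul_one, Finset.prod_const]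
    apply pow_le_pow_right₀ hA
    have h11 := (small_primes J R).trans_lt ht
    exact ((Nat.pow_lt_pow_iff_right (by norm_num)).1 h11).le
  have h12 : ∏ v ∈ P, ((absNorm v : ℝ) ^ ((normalizedFactors J).count v)) ^ ε =
      (absNorm J : ℝ) ^ ε := by
    rw [Real.finsetProd_rpow P _ (fun v _ => by positivity)]
    congr 1
    rw [absNorm_eq_prod J hJ, Finset.prod_multiset_map_count]
    push_cast
    rfl
  rw [h12]
  exact mul_le_mul_of_nonneg_right h10 (by positivity)

/-! ### conjugates -/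

lemma prod_norm (y : 𝓞 K) :
    ∏ σ : K →ₐ[ℚ] ℂ, ‖σ (y : K)‖ = |((Algebra.norm ℤ y : ℤ) : ℝ)| := by
  have h := Algebra.norm_eq_prod_embeddings ℚ ℂ (y : K)
  rw [← Algebra.coe_norm_int] at h
  have h2 := congrArg (fun z : ℂ => ‖z‖) h
  simp only [norm_prod] at h2
  rw [← h2]
  simp

lemma eq_zero_of_small (w : 𝓞 K) (hw : ∀ σ : K →ₐ[ℚ] ℂ, ‖σ (w : K)‖ < 1) : w = 0 := by
  have hcard : Fintype.card (K →ₐ[ℚ] ℂ) = Module.finrank ℚ K := AlgHom.card ℚ K ℂ
  have hpos : 0 < Module.finrank ℚ K := Module.finrank_pos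
  have hne : Nonempty (K →ₐ[ℚ] ℂ) := Fintype.card_pos_iff.1 (by omega)
  obtain ⟨σ0⟩ := hne
  have h1 : ∏ σ : K →ₐ[ℚ] ℂ, ‖σ (w : K)‖ < 1 := by
    classical
    rw [← Finset.mul_prod_erase Finset.univ _ (Finset.mem_univ σ0)]
    have h2 : ∏ σ ∈ Finset.univ.erase σ0, ‖σ (w : K)‖ ≤ 1 :=
      Finset.prod_le_one (fun _ _ => norm_nonneg _) (fun σ _ => (hw σ).le)
    have h3 : 0 ≤ ∏ σ ∈ Finset.univ.erase σ0, ‖σ (w : K)‖ :=
      Finset.prod_nonneg fun _ _ => norm_nonneg _
    nlinarith [hw σ0, norm_nonneg (σ0 (w : K))]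
  rw [prod_norm] at h1
  have h2 : |Algebra.norm ℤ w| < 1 := by exact_mod_cast h1
  have h3 : Algebra.norm ℤ w = 0 := Int.abs_lt_one_iff.1 h2
  rwa [Algebra.norm_eq_zero_iff] at h3

/-- the number of elements generating the same ideal, with comparable conjugates -/
lemma fiber_bound (F : Finset (𝓞 K)) (h0 : ∀ y ∈ F, y ≠ 0)
    (hs : ∀ y ∈ F, ∀ y' ∈ F, span {y} = span {y'})
    (hc : ∀ y ∈ F, ∀ y' ∈ F, ∀ σ : K →ₐ[ℚ] ℂ, ‖σ (y : K)‖ < 3 * ‖σ (y' : K)‖) :
    F.card ≤ 6 ^ Module.finrank ℚ K := by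
  classical
  rcases F.eq_empty_or_nonempty with rfl | ⟨y0, hy0⟩
  · simp
  have h1 : ∀ y ∈ F, ∃ w : 𝓞 K, w * y0 = y := by
    intro y hy
    have h2 := hs y0 hy0 y hy
    rw [Ideal.span_singleton_eq_span_singleton] at h2
    obtain ⟨u, hu⟩ := h2
    exact ⟨u, by rw [mul_comm]; exact hu⟩
  choose! w hw using h1
  have hne : span {((6 : ℕ) : 𝓞 K)} ≠ ⊥ := span_nat_ne (by norm_num)
  have hfin : Finite (𝓞 K ⧸ span {((6 : ℕ) : 𝓞 K)}) := Ideal.finiteQuotientOfFreeOfNeBot _ hne
  have hft := Fintype.ofFinite (𝓞 K ⧸ span {((6 : ℕ) : 𝓞 K)})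
  have hcard : Fintype.card (𝓞 K ⧸ span {((6 : ℕ) : 𝓞 K)}) = 6 ^ Module.finrank ℚ K := by
    rw [← RingOfIntegers.rank K, ← absNorm_span_natCast (S := 𝓞 K) 6, absNorm_apply,
      Submodule.cardQuot_apply, Nat.card_eq_fintype_card]
  rw [← hcard, ← Finset.card_univ]
  refine Finset.card_le_card_of_injOn (fun y => Ideal.Quotient.mk _ (w y))
    (fun y _ => Finset.mem_coe.2 (Finset.mem_univ _)) ?_
  intro y hy y' hy' hyy
  have hy1 : y ∈ F := hy
  have hy2 : y' ∈ F := hy'
  have h3 : w y - w y' ∈ span {((6 : ℕ) : 𝓞 K)} := Ideal.Quotient.eq.1 hyy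
  rw [Ideal.mem_span_singleton] at h3
  obtain ⟨z, hz⟩ := h3
  have hwb : ∀ x ∈ F, ∀ σ : K →ₐ[ℚ] ℂ, ‖σ ((w x : 𝓞 K) : K)‖ < 3 := by
    intro x hx σ
    have h4 := hc x hx y0 hy0 σ
    have h5 : σ (x : K) = σ ((w x : 𝓞 K) : K) * σ (y0 : K) := by
      rw [← map_mul]
      congr 1
      have h6 := congrArg (fun a : 𝓞 K => (a : K)) (hw x hx)
      simp only [map_mul] at h6
      exact h6.symm
    rw [h5, norm_mul] at h4
    have h7 : 0 < ‖σ (y0 : K)‖ := by
      rw [norm_pos_iff]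
      intro h8
      have h9 : (y0 : K) = 0 := by
        rw [← map_zero σ] at h8
        exact σ.toRingHom.injective h8
      apply h0 y0 hy0
      exact RingOfIntegers.coe_eq_zero_iff.1 h9
    exact lt_of_mul_lt_mul_right h4 h7.le
  have hz0 : z = 0 := by
    apply eq_zero_of_small
    intro σ
    have h10 : σ ((w y : 𝓞 K) : K) - σ ((w y' : 𝓞 K) : K) = 6 * σ (z : K) := by
      have h11 := congrArg (fun a : 𝓞 K => σ (a : K)) hz
      simp only [map_mul, map_sub] at h11
      rw [h11, map_natCast, map_natCast]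
      norm_num
    have h12 : ‖6 * σ (z : K)‖ < 6 := by
      rw [← h10]
      refine (norm_sub_le _ _).trans_lt ?_
      linarith [hwb y hy1 σ, hwb y' hy2 σ]
    rw [norm_mul] at h12
    have h13 : ‖(6 : ℂ)‖ = 6 := by simp
    rw [h13] at h12
    linarith
  have h14 : w y = w y' := by
    rw [hz0, mul_zero] at hz
    exact sub_eq_zero.1 hz
  rw [← hw y hy1, ← hw y' hy2, h14]

end

open Classical in
theorem t : Pool.Agent.W223.VD.StmtNF := by
  intro n δ hδ
  -- constants
  by_cases hn : n = 0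
  · refine ⟨1, one_pos, ?_⟩
    intro K _ _ hK
    have := Module.finrank_pos (R := ℚ) (M := K)
    omega
  have hn1 : 1 ≤ n := Nat.one_le_iff_ne_zero.2 hn
  have hnR : (1 : ℝ) ≤ (n : ℝ) := by exact_mod_cast hn1
  obtain ⟨ε, hε⟩ : ∃ ε : ℝ, ε = δ / (2 * (n : ℝ) ^ 2) := ⟨_, rfl⟩
  obtain ⟨η, hη⟩ : ∃ η : ℝ, η = δ / (2 * (n : ℝ)) := ⟨_, rfl⟩
  have hε0 : 0 < ε := by rw [hε]; positivity
  have hη0 : 0 < η := by rw [hη]; positivity
  have hlog2 : 0 < Real.log 2 := Real.log_pos (by norm_num)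
  obtain ⟨A, hA⟩ : ∃ A : ℝ, A = max 1 (1 / (ε * Real.log 2)) := ⟨_, rfl⟩
  have hA1 : 1 ≤ A := by rw [hA]; exact le_max_left _ _
  have hAε : 1 ≤ A * (ε * Real.log 2) := by
    have h1 : 1 / (ε * Real.log 2) ≤ A := by rw [hA]; exact le_max_right _ _
    rwa [div_le_iff₀ (mul_pos hε0 hlog2)] at h1
  obtain ⟨R, hR⟩ := exists_nat_ge ((2 : ℝ) ^ (1 / ε))
  have hR2 : 2 ≤ (R : ℝ) ^ ε := by
    have h1 : ((2 : ℝ) ^ (1 / ε)) ^ ε ≤ (R : ℝ) ^ ε :=
      Real.rpow_le_rpow (by positivity) hR hε0.le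
    rwa [← Real.rpow_mul (by norm_num), one_div, inv_mul_cancel₀ hε0.ne', Real.rpow_one] at h1
  obtain ⟨t, ht⟩ : ∃ t : ℕ, R.factorial ^ n < 2 ^ t := ⟨_, Nat.lt_two_pow_self⟩
  refine ⟨A ^ t * (2 * n / η + 3) ^ n * 6 ^ n, by positivity, ?_⟩
  intro K _ _ hK m X E hm hX hE
  rcases E.eq_empty_or_nonempty with rfl | hEne
  · simp only [Finset.card_empty, Nat.cast_zero]
    positivity
  have hX0 : 0 < X := by linarith
  have hcardσ : Fintype.card (K →ₐ[ℚ] ℂ) = n := by rw [AlgHom.card ℚ K ℂ, hK]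
  have hlogX : 0 ≤ Real.log X := Real.log_nonneg hX
  -- sizes of the conjugates
  have hup : ∀ y ∈ E, ∀ σ : K →ₐ[ℚ] ℂ, ‖σ (y : K)‖ ≤ X := fun y hy σ => (hE y hy).2 (σ : K →+* ℂ)
  have hmabs : (1 : ℝ) ≤ |((m : ℤ) : ℝ)| := by
    have h1 : 1 ≤ |m| := Int.one_le_abs hm
    exact_mod_cast h1
  have hprod : ∀ y ∈ E, ∏ σ : K →ₐ[ℚ] ℂ, ‖σ (y : K)‖ = |((m : ℤ) : ℝ)| := by
    intro y hy
    rw [prod_norm, (hE y hy).1]
  have hmX : |((m : ℤ) : ℝ)| ≤ X ^ n := by
    obtain ⟨y, hy⟩ := hEne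
    rw [← hprod y hy, ← hcardσ, ← Finset.card_univ, ← Finset.prod_const]
    exact Finset.prod_le_prod (fun _ _ => norm_nonneg _) (fun σ _ => hup y hy σ)
  have hlow : ∀ y ∈ E, ∀ σ : K →ₐ[ℚ] ℂ, 1 ≤ ‖σ (y : K)‖ * X ^ n := by
    intro y hy σ
    have h1 := hprod y hy
    rw [← Finset.mul_prod_erase Finset.univ _ (Finset.mem_univ σ)] at h1
    have h2 : ∏ τ ∈ Finset.univ.erase σ, ‖τ (y : K)‖ ≤ X ^ n := by
      calc ∏ τ ∈ Finset.univ.erase σ, ‖τ (y : K)‖
          ≤ ∏ τ ∈ Finset.univ.erase σ, X :=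
            Finset.prod_le_prod (fun _ _ => norm_nonneg _) (fun τ _ => hup y hy τ)
        _ = X ^ (Finset.univ.erase σ).card := by rw [Finset.prod_const]
        _ ≤ X ^ n := by
            apply pow_le_pow_right₀ hX
            rw [← hcardσ, ← Finset.card_univ]
            exact Finset.card_le_card (Finset.erase_subset _ _)
    calc (1 : ℝ) ≤ |((m : ℤ) : ℝ)| := hmabs
      _ = ‖σ (y : K)‖ * ∏ τ ∈ Finset.univ.erase σ, ‖τ (y : K)‖ := h1.symm
      _ ≤ ‖σ (y : K)‖ * X ^ n := mul_le_mul_of_nonneg_left h2 (norm_nonneg _)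
  have hpos : ∀ y ∈ E, ∀ σ : K →ₐ[ℚ] ℂ, 0 < ‖σ (y : K)‖ := by
    intro y hy σ
    by_contra h
    have h1 : ‖σ (y : K)‖ = 0 := le_antisymm (not_lt.1 h) (norm_nonneg _)
    have h2 := hlow y hy σ
    rw [h1, zero_mul] at h2
    linarith
  have hne0 : ∀ y ∈ E, y ≠ 0 := by
    intro y hy h
    have h1 := (hE y hy).1
    rw [h, Algebra.norm_zero] at h1
    exact hm h1.symm
  -- the ideal
  set J : Ideal (𝓞 K) := span {((m.natAbs : ℕ) : 𝓞 K)} with hJdef
  have hJ : J ≠ ⊥ := span_nat_ne (Int.natAbs_ne_zero.2 hm)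
  set N0 : ℕ := ⌈(n : ℝ) * Real.log X⌉₊ with hN0
  have hN0' : (n : ℝ) * Real.log X ≤ N0 := Nat.le_ceil _
  -- the map to ideals and cells
  let g : 𝓞 K → Multiset (Ideal (𝓞 K)) × ((K →ₐ[ℚ] ℂ) → ℤ) := fun y =>
    (normalizedFactors (span {y}), fun σ => ⌊Real.log ‖σ (y : K)‖⌋)
  let cells : Finset ((K →ₐ[ℚ] ℂ) → ℤ) := Fintype.piFinset (fun _ => Finset.Icc (-(N0 : ℤ)) N0)
  have hmaps : E.image g ⊆ (Finset.Iic (normalizedFactors J)) ×ˢ cells := by
    intro z hz
    rw [Finset.mem_image] at hz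
    obtain ⟨y, hy, rfl⟩ := hz
    rw [Finset.mem_product, Finset.mem_Iic]
    constructor
    · have hy0 : span {y} ≠ (⊥ : Ideal (𝓞 K)) := by
        rw [Ne, Ideal.span_singleton_eq_bot]
        exact hne0 y hy
      show normalizedFactors (span {y}) ≤ normalizedFactors J
      rw [← dvd_iff_normalizedFactors_le_normalizedFactors hy0 hJ, Ideal.dvd_iff_le, hJdef,
        Ideal.span_singleton_le_iff_mem]
      have h1 : (m.natAbs : ℕ) = absNorm (span {y}) := by
        rw [absNorm_span_singleton, (hE y hy).1]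
      rw [h1]
      exact absNorm_mem _
    · show (fun σ : K →ₐ[ℚ] ℂ => ⌊Real.log ‖σ (y : K)‖⌋) ∈ cells
      rw [Fintype.mem_piFinset]
      intro σ
      rw [Finset.mem_Icc]
      have h1 : Real.log ‖σ (y : K)‖ ≤ Real.log X := Real.log_le_log (hpos y hy σ) (hup y hy σ)
      have h2 : -((n : ℝ) * Real.log X) ≤ Real.log ‖σ (y : K)‖ := by
        have h3 := Real.log_le_log one_pos (hlow y hy σ)
        rw [Real.log_one, Real.log_mul (hpos y hy σ).ne' (by positivity), Real.log_pow] at h3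
        linarith
      constructor
      · rw [Int.le_floor]
        push_cast
        linarith
      · have h4 : (⌊Real.log ‖σ (y : K)‖⌋ : ℝ) ≤ (N0 : ℝ) := by
          refine (Int.floor_le _).trans (h1.trans ?_)
          nlinarith
        exact_mod_cast h4
  have hfib : ∀ a ∈ E.image g, (E.filter (fun x => g x = a)).card ≤ 6 ^ n := by
    intro a ha
    rw [← hK]
    apply fiber_bound
    · intro y hy
      exact hne0 y (Finset.mem_filter.1 hy).1
    · intro y hy y' hy'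
      rw [Finset.mem_filter] at hy hy'
      have h1 : normalizedFactors (span {y}) = normalizedFactors (span {y'}) := by
        have h2 := hy.2.trans hy'.2.symm
        exact congrArg Prod.fst h2
      have hy0 : span {y} ≠ (⊥ : Ideal (𝓞 K)) := by
        rw [Ne, Ideal.span_singleton_eq_bot]
        exact hne0 y hy.1
      have hy0' : span {y'} ≠ (⊥ : Ideal (𝓞 K)) := by
        rw [Ne, Ideal.span_singleton_eq_bot]
        exact hne0 y' hy'.1
      rw [← Ideal.prod_normalizedFactors_eq_self hy0, h1,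
        Ideal.prod_normalizedFactors_eq_self hy0']
    · intro y hy y' hy' σ
      rw [Finset.mem_filter] at hy hy'
      have h1 : ⌊Real.log ‖σ (y : K)‖⌋ = ⌊Real.log ‖σ (y' : K)‖⌋ := by
        have h2 := hy.2.trans hy'.2.symm
        exact congrFun (congrArg Prod.snd h2) σ
      have h3 : Real.log ‖σ (y : K)‖ < Real.log ‖σ (y' : K)‖ + 1 := by
        have h4 := Int.lt_floor_add_one (Real.log ‖σ (y : K)‖)
        have h5 := Int.floor_le (Real.log ‖σ (y' : K)‖)
        rw [h1] at h4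
        linarith
      have h6 : ‖σ (y : K)‖ < ‖σ (y' : K)‖ * Real.exp 1 := by
        rw [← Real.exp_log (hpos y hy.1 σ), ← Real.exp_log (hpos y' hy'.1 σ), ← Real.exp_add]
        exact Real.exp_lt_exp.2 h3
      have h7 : Real.exp 1 < 3 := by
        have := Real.exp_one_lt_d9
        linarith
      have h8 := hpos y' hy'.1 σ
      nlinarith
  have hcount := Finset.card_le_mul_card_image E (6 ^ n) hfib
  have hcount2 : E.card ≤ 6 ^ n * ((Finset.Iic (normalizedFactors J)).card * cells.card) := by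
    refine hcount.trans (Nat.mul_le_mul_left _ ?_)
    rw [← Finset.card_product]
    exact Finset.card_le_card hmaps
  have hcells : (cells.card : ℝ) ≤ (2 * n / η + 3) ^ n * X ^ (δ / 2) := by
    have h1 : cells.card = (2 * N0 + 1) ^ n := by
      simp only [cells]
      rw [Fintype.card_piFinset, Finset.prod_const, Finset.card_univ, hcardσ, Int.card_Icc]
      congr 1
      omega
    rw [h1]
    push_cast
    have h2 : (N0 : ℝ) ≤ n * Real.log X + 1 := (Nat.ceil_lt_add_one (by positivity)).le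
    have h3 : Real.log X ≤ X ^ η / η := Real.log_le_rpow_div hX0.le hη0
    have h4 : 1 ≤ X ^ η := Real.one_le_rpow hX hη0.le
    have h5 : 2 * (N0 : ℝ) + 1 ≤ (2 * n / η + 3) * X ^ η := by
      have h6 : (n : ℝ) * Real.log X ≤ n * (X ^ η / η) :=
        mul_le_mul_of_nonneg_left h3 (by linarith)
      calc 2 * (N0 : ℝ) + 1 ≤ 2 * (n * (X ^ η / η)) + 3 := by linarith
        _ ≤ 2 * (n * (X ^ η / η)) + 3 * X ^ η := by linarith
        _ = (2 * n / η + 3) * X ^ η := by ring
    refine (pow_le_pow_left₀ (by positivity) h5 n).trans (le_of_eq ?_)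
    rw [mul_pow]
    congr 1
    rw [← Real.rpow_natCast (X ^ η) n, ← Real.rpow_mul hX0.le]
    congr 1
    rw [hη]
    field_simp
  have hideals : ((Finset.Iic (normalizedFactors J)).card : ℝ) ≤ A ^ t * X ^ (δ / 2) := by
    have h1 := divisors_bound ε A hε0 R t hA1 hAε hR2 J hJ (by rw [hK]; exact ht)
    refine h1.trans (mul_le_mul_of_nonneg_left ?_ (by positivity))
    have h2 : (absNorm J : ℝ) = |((m : ℤ) : ℝ)| ^ n := by
      rw [hJdef, absNorm_span_natCast, RingOfIntegers.rank, hK]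
      push_cast
      rw [Nat.cast_natAbs]
      push_cast
      rfl
    rw [h2]
    have h3 : (|((m : ℤ) : ℝ)| ^ n) ^ ε ≤ ((X ^ n) ^ n) ^ ε :=
      Real.rpow_le_rpow (by positivity) (pow_le_pow_left₀ (abs_nonneg _) hmX n) hε0.le
    refine h3.trans (le_of_eq ?_)
    rw [← pow_mul, ← Real.rpow_natCast, ← Real.rpow_mul hX0.le]
    congr 1
    rw [hε]
    push_cast
    field_simp
  calc (E.card : ℝ) ≤ ((6 ^ n * ((Finset.Iic (normalizedFactors J)).card * cells.card) : ℕ) : ℝ) := by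
        exact_mod_cast hcount2
    _ = 6 ^ n * (((Finset.Iic (normalizedFactors J)).card : ℝ) * (cells.card : ℝ)) := by push_cast; ring
    _ ≤ 6 ^ n * ((A ^ t * X ^ (δ / 2)) * ((2 * n / η + 3) ^ n * X ^ (δ / 2))) := by
        apply mul_le_mul_of_nonneg_left _ (by positivity)
        exact mul_le_mul hideals hcells (by positivity) (by positivity)
    _ = A ^ t * (2 * n / η + 3) ^ n * 6 ^ n * (X ^ (δ / 2) * X ^ (δ / 2)) := by ring
    _ = A ^ t * (2 * n / η + 3) ^ n * 6 ^ n * X ^ δ := by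
        rw [← Real.rpow_add hX0, add_halves]

end

end Pool.Agent.W585.VD

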